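import Pool.Agent.helper36.MP.SpecN
import Pool.Agent.helper54.CR.Landau

set_option autoImplicit false

open Complex Metric Set Filter Topology MeasureTheory

noncomputable section

namespace MPS

theorem NG_core {F : ℂ → ℂ} (hF : DifferentiableOn ℂ F (ball 0 1))
    (hF0 : ∀ u ∈ ball (0 : ℂ) 1, F u ≠ 0) (h0 : F 0 = 1)
    (h1 : ∀ u ∈ ball (0 : ℂ) 1, F u = 1 → u = 0) {ρ : ℝ} (hρ : ρ < 1) (u : ℂ) (hu : ‖u‖ ≤ ρ) :
    ‖F u‖ ≤ Real.exp (2 * Real.exp (4000 / (1 - ρ))) := by
  obtain ⟨g, hgd, hg0, hg⟩ := Pool.Agent.helper98.ILF.exists_lift_exp (w := (0 : ℂ)) (u := 0)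
    one_pos hF hF0 (by rw [Complex.exp_zero, h0])
  set L : ℂ → ℂ := fun y => g y / 2 with hL
  have hLd : DifferentiableOn ℂ L (ball 0 1) := hgd.div_const 2
  have hLa : ∀ y ∈ ball (0 : ℂ) 1, HasDerivAt L (deriv L y) y := fun y hy =>
    ((hLd y hy).differentiableAt (isOpen_ball.mem_nhds hy)).hasDerivAt
  have hK : 0 < 4000 / (1 - ρ) := div_pos (by norm_num) (by linarith)
  have key : ∀ y : ℂ, ‖y‖ ≤ ρ → ‖deriv L y‖ ≤ 4000 / (1 - ρ) * (1 + ‖L y‖) := by
    intro y hy
    have hy1 : y ∈ ball (0 : ℂ) 1 := by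
      rw [mem_ball_zero_iff]
      linarith
    have hsub : ball y (1 - ρ) ⊆ ball (0 : ℂ) 1 := by
      intro z hz
      rw [mem_ball, dist_eq_norm] at hz
      rw [mem_ball_zero_iff]
      have : ‖z‖ ≤ ‖z - y‖ + ‖y‖ := by
        have := norm_add_le (z - y) y
        rwa [sub_add_cancel] at this
      linarith
    set s : ℂ → ℂ := fun z => -Complex.exp (L z) with hs
    have hsd : DifferentiableOn ℂ s (ball y (1 - ρ)) := ((hLd.mono hsub).cexp).neg
    have hlan := Pool.Agent.helper54.CR.landau (F := s) (w := y) (ρ := 1 - ρ) (by linarith) hsd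
      (fun z _ => neg_ne_zero.2 (Complex.exp_ne_zero _)) (by
        intro z hz h
        have hz1 := hsub hz
        have e1 : Complex.exp (L z) = -1 := by
          have h' : -Complex.exp (L z) = 1 := h
          rw [← h', neg_neg]
        have e2 : F z = 1 := by
          rw [← hg z hz1]
          have : g z = L z + L z := by
            simp only [hL]
            ring
          rw [this, Complex.exp_add, e1]
          norm_num
        have e3 := h1 z hz1 e2
        rw [e3] at e1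
        simp only [hL, hg0, zero_div, Complex.exp_zero] at e1
        norm_num at e1)
    have hder : deriv s y = -(Complex.exp (L y) * deriv L y) := ((hLa y hy1).cexp.neg).deriv
    have e4 : deriv s y / s y = deriv L y := by
      rw [hder]
      simp only [hs]
      field_simp [Complex.exp_ne_zero]
    have e5 : Real.log ‖s y‖ = (L y).re := by
      simp only [hs]
      rw [norm_neg, Complex.norm_exp, Real.log_exp]
    rw [e4, e5] at hlan
    refine hlan.trans ?_
    have e6 : |(L y).re| ≤ ‖L y‖ := Complex.abs_re_le_norm _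
    gcongr
  have hρ0 : 0 ≤ ρ := (norm_nonneg u).trans hu
  have hmem : ∀ t ∈ Icc (0 : ℝ) 1, ‖(t : ℂ) * u‖ ≤ ρ := by
    intro t ht
    rw [norm_mul, Complex.norm_real, Real.norm_eq_abs, abs_of_nonneg ht.1]
    calc t * ‖u‖ ≤ 1 * ‖u‖ := by
          apply mul_le_mul_of_nonneg_right ht.2 (norm_nonneg _)
      _ ≤ ρ := by rw [one_mul]; exact hu
  have hd : ∀ t ∈ Icc (0 : ℝ) 1,
      HasDerivAt (fun t : ℝ => L ((t : ℂ) * u)) (deriv L ((t : ℂ) * u) * u) t := by
    intro t ht
    have hm : (t : ℂ) * u ∈ ball (0 : ℂ) 1 := by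
      rw [mem_ball_zero_iff]
      linarith [hmem t ht]
    have e1 : HasDerivAt (fun z : ℂ => z * u) u (t : ℂ) := by
      simpa using (hasDerivAt_id (t : ℂ)).mul_const u
    have e2 : HasDerivAt (fun z : ℂ => L (z * u)) (deriv L ((t : ℂ) * u) * u) (t : ℂ) :=
      HasDerivAt.comp (t : ℂ) (hLa _ hm) e1
    exact e2.comp_ofReal
  have hgr := norm_le_gronwallBound_of_norm_deriv_right_le (E := ℂ)
    (f := fun t : ℝ => L ((t : ℂ) * u)) (f' := fun t : ℝ => deriv L ((t : ℂ) * u) * u)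
    (δ := 0) (K := 4000 / (1 - ρ)) (ε := 4000 / (1 - ρ)) (a := 0) (b := 1)
    (fun t ht => (hd t ht).continuousAt.continuousWithinAt)
    (fun t ht => (hd t (Ico_subset_Icc_self ht)).hasDerivWithinAt)
    (by simp [hL, hg0])
    (by
      intro t ht
      have h2 := key _ (hmem t (Ico_subset_Icc_self ht))
      rw [norm_mul]
      have h3 : ‖deriv L ((t : ℂ) * u)‖ * ‖u‖ ≤ ‖deriv L ((t : ℂ) * u)‖ * 1 :=
        mul_le_mul_of_nonneg_left (by linarith) (norm_nonneg _)
      linarith)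
    1 (right_mem_Icc.2 zero_le_one)
  rw [gronwallBound_of_K_ne_0 hK.ne', div_self hK.ne'] at hgr
  simp only [sub_zero, mul_one, zero_mul, zero_add, one_mul, Complex.ofReal_one] at hgr
  have hu1 : u ∈ ball (0 : ℂ) 1 := by
    rw [mem_ball_zero_iff]
    linarith
  rw [← hg u hu1, Complex.norm_exp]
  apply Real.exp_le_exp.2
  have e7 : (g u).re ≤ ‖g u‖ := Complex.re_le_norm _
  have e8 : ‖g u‖ = 2 * ‖L u‖ := by
    simp only [hL]
    rw [norm_div, Complex.norm_ofNat]
    ring
  linarith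

theorem NG : NG_stmt := by
  intro δ hδ
  set ρ : ℝ := Real.exp (-δ) with hρ
  have hρ1 : ρ < 1 := by
    rw [hρ, ← Real.exp_zero]
    apply Real.exp_lt_exp.2
    linarith
  set M : ℝ := Real.exp (2 * Real.exp (4000 / (1 - ρ))) with hM
  have hM0 : 0 < M := Real.exp_pos _
  refine ⟨5 + 8 * M, by linarith, ?_⟩
  intro k _ b g i ψ hk hb hb4 hψ u hu
  have : Fact (1 < k) := ⟨by omega⟩
  have hl : i + 1 ≠ i := by simp
  have hbl : b i - b (i + 1) ≠ 0 := sub_ne_zero.2 (fun h => hl (hb h).symm)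
  set F : ℂ → ℂ := fun z => (ψ z - b (i + 1)) / (b i - b (i + 1)) with hF
  have hFd : DifferentiableOn ℂ F (ball 0 1) := (hψ.diff.sub_const _).div_const _
  have hFne : ∀ z ∈ ball (0 : ℂ) 1, F z ≠ 0 := by
    intro z hz
    simp only [hF]
    refine div_ne_zero (sub_ne_zero.2 ?_) hbl
    by_cases hz0 : z = 0
    · rw [hz0, hψ.val]
      exact fun h => hl (hb h).symm
    · exact hψ.av z hz hz0 _
  have hF0 : F 0 = 1 := by
    simp only [hF]
    rw [hψ.val, div_self hbl]
  have hF1 : ∀ z ∈ ball (0 : ℂ) 1, F z = 1 → z = 0 := by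
    intro z hz h
    by_contra hz0
    apply hψ.av z hz hz0 i
    simp only [hF] at h
    rw [div_eq_one_iff_eq hbl] at h
    exact sub_left_injective h
  have h2 := NG_core hFd hFne hF0 hF1 hρ1 u hu
  rw [← hM] at h2
  have h3 : ψ u = F u * (b i - b (i + 1)) + b (i + 1) := by
    simp only [hF]
    rw [div_mul_cancel₀ _ hbl]
    ring
  rw [h3]
  have h4 : ‖b i - b (i + 1)‖ ≤ 8 := by
    have := norm_sub_le (b i) (b (i + 1))
    linarith [hb4 i, hb4 (i + 1)]
  calc ‖F u * (b i - b (i + 1)) + b (i + 1)‖ ≤ ‖F u * (b i - b (i + 1))‖ + ‖b (i + 1)‖ :=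
        norm_add_le _ _
    _ ≤ M * 8 + 4 := by
        rw [norm_mul]
        exact add_le_add (mul_le_mul h2 h4 (norm_nonneg _) hM0.le) (hb4 _)
    _ < 5 + 8 * M := by linarith

end MPS
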