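import Pool.Agent.helper36.MP.SpecP

set_option autoImplicit false

open Complex Metric Set Filter Topology MeasureTheory

noncomputable section

namespace MPS

section
variable {n k : ℕ} [NeZero k] {c : ℂ} {b g : ZMod k → ℂ} {ψ : ZMod k → ℂ → ℂ}
  {R ε δ : ℝ} {A : ℕ → ℝ} {G : ℕ → ℂ → ℂ} {Q : ℕ}

theorem PH1_restr (h : H1 n k c b g ψ R ε δ A G Q) {q : ℕ} (hq : q ≤ Q) :
    H1 n k c b g ψ R ε δ A G q where
  su := h.su
  d0 := h.d0
  d1 := h.d1
  mp := h.mp
  sys :=
    { a0 := h.sys.a0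
      mono := fun j hj => h.sys.mono j (by omega)
      g0 := h.sys.g0
      diff := fun j h1 h2 => h.sys.diff j h1 (by omega)
      rel := fun j hj => h.sys.rel j (by omega)
      val := fun j hj => h.sys.val j (by omega)
      disj := fun j h1 h2 => h.sys.disj j h1 (by omega) }
  hQ := by
    have := h.hQ
    omega

theorem PH1_mono (h : H1 n k c b g ψ R ε δ A G Q) {i j : ℕ} (hij : i ≤ j) (hj : j ≤ Q) :
    A i ≤ A j := by
  induction j, hij using Nat.le_induction with
  | base => exact le_refl _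
  | succ j hij ih => exact (ih (by omega)).trans (h.sys.mono j (by omega))

theorem PH1_ball {a a' : ℝ} (h : a ≤ a') :
    ball (0 : ℂ) (Real.exp (-a')) ⊆ ball (0 : ℂ) (Real.exp (-a)) :=
  ball_subset_ball (Real.exp_le_exp.2 (by linarith))

theorem PH1_iter (h : H1 n k c b g ψ R ε δ A G Q) (m q : ℕ) (hmq : m + q ≤ Q) (u : ℂ)
    (hu : u ∈ ball (0 : ℂ) (Real.exp (-A (m + q)))) :
    (fun z : ℂ => z ^ n + c)^[m] (G (m + q) u) = G q u := by
  induction m with
  | zero => rw [zero_add, Function.iterate_zero, id]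
  | succ m ih =>
    have e : m + 1 + q = m + q + 1 := by omega
    rw [e] at hu hmq ⊢
    rw [Function.iterate_succ_apply]
    have h1 := (h.sys.rel (m + q) (by omega) u hu).1
    rw [h1]
    exact ih (by omega) (PH1_ball (PH1_mono h (by omega) (by omega)) hu)

theorem PH1_level {a : ℝ} (h0 : A 0 < a) (hk : a < A Q) :
    (∃ q ≤ Q, a = A q) ∨ ∃ q < Q, A q < a ∧ a < A (q + 1) := by
  classical
  have hex : ∃ q, a ≤ A q := ⟨Q, hk.le⟩
  have hs := Nat.find_spec hex
  have hQ : Nat.find hex ≤ Q := Nat.find_min' hex hk.le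
  have hne : Nat.find hex ≠ 0 := by
    intro h
    rw [h] at hs
    linarith
  obtain ⟨q, hq⟩ := Nat.exists_eq_succ_of_ne_zero hne
  have h2 : ¬ a ≤ A q := Nat.find_min hex (by omega)
  rw [hq] at hs hQ
  rcases hs.eq_or_lt with h3 | h3
  · exact Or.inl ⟨_, hQ, h3⟩
  · exact Or.inr ⟨q, by omega, not_le.1 h2, h3⟩

/-- the cutoffs at which the critical value is attained. -/
def PH1_T (k : ℕ) (c : ℂ) (ψ : ℂ → ℂ) (δ : ℝ) (A : ℕ → ℝ) (G : ℕ → ℂ → ℂ) : Set ℝ :=
  {a | ∃ q < k, A q < a ∧ a < A (q + 1) ∧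
    (1 ≤ q → Disjoint (G q '' ball 0 (Real.exp (-a))) (ψ '' ball 0 (Real.exp (-δ)))) ∧
    c ∈ G q '' ball 0 (Real.exp (-a))}

theorem PH1_diam (hEV : EV1_stmt) (hP : P1A_stmt) (h : H1 n k c b g ψ R ε δ A G k)
    (hA : A 0 = 2 * δ) (hε : ε ≤ δ ^ 2 / 10 ^ 16) {a a' : ℝ} (ha : a ∈ PH1_T k c (ψ 0) δ A G)
    (ha' : a' ∈ PH1_T k c (ψ 0) δ A G) (haa : a < a') : a' - a ≤ δ / 4 := by
  obtain ⟨q, hq, hq1, hq2, hq3, u, hu, hu2⟩ := ha
  obtain ⟨p, hp, hp1, hp2, hp3, v, hv, hv2⟩ := ha'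
  have hd0 := h.d0
  have hqp : q ≤ p := by
    by_contra hlt
    have := PH1_mono h (show p + 1 ≤ q by omega) (by omega)
    linarith
  rcases hqp.eq_or_lt with heq | hlt
  · subst heq
    have hinj := (hP n k c b g ψ R ε δ A G k h).2.1 q (by omega)
    have huv : u = v := hinj (PH1_ball hq1.le hu) (PH1_ball hp1.le hv) (by rw [hu2, hv2])
    subst huv
    have h3 := hEV n k c b g ψ R ε δ A G q (PH1_restr h (by omega)) hq hε a u hq1.le hq3 hu hu2
    rw [mem_ball_zero_iff] at hv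
    have h4 := h3.trans hv
    rw [Real.exp_lt_exp] at h4
    linarith
  · exfalso
    have e1 : (fun z : ℂ => z ^ n + c)^[q] (G (q + 0) u) = G 0 u :=
      PH1_iter h q 0 (by omega) u (PH1_ball (by simpa using hq1.le) hu)
    have e2 : (fun z : ℂ => z ^ n + c)^[q] (G (q + (p - q)) v) = G (p - q) v := by
      apply PH1_iter h q (p - q) (by omega) v
      have : q + (p - q) = p := by omega
      rw [this]
      exact PH1_ball hp1.le hv
    rw [show q + (p - q) = p by omega] at e2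
    rw [add_zero] at e1
    rw [hv2] at e2
    rw [hu2, e2, h.sys.g0] at e1
    have hAq : 2 * δ ≤ A q := by
      rw [← hA]
      exact PH1_mono h (by omega) (by omega)
    have hu3 : u ∈ ball (0 : ℂ) (Real.exp (-δ)) := PH1_ball (by linarith) hu
    rcases Nat.eq_zero_or_pos q with h0 | h0
    · subst h0
      have h5 := hp3 (by omega)
      rw [Nat.sub_zero] at e1
      exact Set.disjoint_left.1 h5 ⟨v, hv, rfl⟩ ⟨u, hu3, e1.symm⟩
    · have h5 := h.sys.disj (p - q) (by omega) (by omega)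
      have h6 : v ∈ ball (0 : ℂ) (Real.exp (-A (p - q + 1))) := by
        apply PH1_ball _ hv
        have := PH1_mono h (show p - q + 1 ≤ p by omega) (by omega)
        linarith
      exact Set.disjoint_left.1 h5 ⟨v, h6, rfl⟩ ⟨u, hu3, e1.symm⟩

theorem PH1_volT (hEV : EV1_stmt) (hP : P1A_stmt) (h : H1 n k c b g ψ R ε δ A G k)
    (hA : A 0 = 2 * δ) (hε : ε ≤ δ ^ 2 / 10 ^ 16) :
    volume (PH1_T k c (ψ 0) δ A G) ≤ ENNReal.ofReal (δ / 4) := by
  have hd0 := h.d0
  refine (Real.volume_le_diam _).trans ?_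
  refine Metric.ediam_le ?_
  intro x hx y hy
  rw [edist_dist, Real.dist_eq]
  apply ENNReal.ofReal_le_ofReal
  rcases lt_trichotomy x y with h1 | h1 | h1
  · rw [abs_sub_comm, abs_of_pos (by linarith)]
    exact PH1_diam hEV hP h hA hε hx hy h1
  · rw [h1, sub_self, abs_zero]
    linarith
  · rw [abs_of_pos (by linarith)]
    exact PH1_diam hEV hP h hA hε hy hx h1

theorem PH1_eps (h : SU n k c b g ψ R ε) : 0 ≤ ε := by
  have h1 := h.hE
  have h2 : 0 < Real.log ‖rho n b‖ := Real.log_pos h.rho1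
  have h3 : 0 ≤ ∫ z in ball (0 : ℂ) R, ‖er n c b g z‖ :=
    integral_nonneg fun z => norm_nonneg _
  have h4 := Real.pi_pos
  have h5 : 0 < 2 * Real.pi * Real.log ‖rho n b‖ := by positivity
  linarith

end

theorem PH1 (hSEQ : SEQ1_stmt) (hMU : MU1_stmt) (hRE : REACH1_stmt) (hCH : CHEB_stmt)
    (hEV : EV1_stmt) (hP : P1A_stmt) : PH1_stmt := by
  intro n k _ c b g ψ R ε δ hSU hδ hδ1 hmp hε
  obtain ⟨A, G, hH, hA0, hfail⟩ := hSEQ n k c b g ψ R ε δ hSU hδ hδ1 hmp
  obtain ⟨μ, hμ1, hμ2⟩ := hMU n k c b g ψ R ε δ A G k hH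
  have hε0 := PH1_eps hSU
  have hε2 : ε ≤ δ ^ 2 / 10 ^ 16 := by
    refine hε.trans ?_
    apply div_le_div_of_nonneg_right _ (by positivity)
    nlinarith [sq_nonneg δ]
  have hε3 : ε ≤ δ ^ 2 / 1024 := by
    refine hε2.trans ?_
    apply div_le_div_of_nonneg_left (by positivity) (by norm_num) (by norm_num)
  have hcheb := hCH μ 1 (3 * ε) (3 * δ / 4) one_pos (by linarith) (by linarith) hμ1
  have hcb : 16 * 1 * (3 * ε) / (Real.pi * (3 * δ / 4) ^ 2) ≤ δ / 4 := by
    have hpi : 3 < Real.pi := Real.pi_gt_three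
    rw [div_le_iff₀ (by positivity)]
    have h1 : 48 * ε ≤ 48 * (δ ^ 3 / 10 ^ 16) := by linarith
    have h2 : δ / 4 * (3 * (3 * δ / 4) ^ 2) ≤ δ / 4 * (Real.pi * (3 * δ / 4) ^ 2) := by
      gcongr
    have h3 : 48 * (δ ^ 3 / 10 ^ 16) ≤ δ / 4 * (3 * (3 * δ / 4) ^ 2) := by
      have : 0 < δ ^ 3 := by positivity
      nlinarith
    linarith
  have hAk : A k ≤ 3 * δ := by
    by_contra hlt
    push Not at hlt
    have hsub : Ioo (2 * δ) (A k) ⊆
        ({s : ℝ | ENNReal.ofReal (3 * δ / 4) ≤ PsiM μ 1 s} ∪ PH1_T k c (ψ 0) δ A G) ∪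
          (A '' (Finset.range (k + 1) : Set ℕ)) := by
      intro a ha
      rw [← hA0] at ha
      rcases PH1_level ha.1 ha.2 with ⟨q, hq, h1⟩ | ⟨q, hq, h1, h2⟩
      · right
        refine ⟨q, ?_, h1.symm⟩
        simp only [Finset.coe_range, mem_Iio]
        omega
      · left
        by_cases hdis : 1 ≤ q ∧ ¬ Disjoint (G q '' ball 0 (Real.exp (-a)))
            (ψ 0 '' ball 0 (Real.exp (-δ)))
        · left
          exact hRE n k c b g ψ R ε δ A G k μ hH hε3 hμ2 q a hdis.1 hq hq.le h1.le hdis.2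
        · right
          refine ⟨q, hq, h1, h2, ?_, ?_⟩
          · intro h3
            by_contra h4
            exact hdis ⟨h3, h4⟩
          · rcases hfail q hq a h1 h2 with h3 | h3
            · exact absurd h3 hdis
            · exact h3
    have hfin : volume (A '' (Finset.range (k + 1) : Set ℕ)) = 0 :=
      ((Finset.finite_toSet _).image A).measure_zero _
    have h1 : volume (Ioo (2 * δ) (A k)) ≤ ENNReal.ofReal (δ / 4) + ENNReal.ofReal (δ / 4) := by
      refine (measure_mono hsub).trans ?_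
      refine (measure_union_le _ _).trans ?_
      rw [hfin, add_zero]
      refine (measure_union_le _ _).trans ?_
      refine add_le_add (hcheb.trans (ENNReal.ofReal_le_ofReal hcb)) ?_
      exact PH1_volT hEV hP hH hA0 hε2
    rw [Real.volume_Ioo, ← ENNReal.ofReal_add (by linarith) (by linarith),
      ENNReal.ofReal_le_ofReal_iff (by linarith)] at h1
    linarith
  refine ⟨G, ?_⟩
  have hle : ∀ q ≤ k, A q ≤ 3 * δ := fun q hq => (PH1_mono hH hq le_rfl).trans hAk
  exact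
    { a0 := by linarith
      mono := fun _ _ => le_rfl
      g0 := hH.sys.g0
      diff := fun q h1 h2 => (hH.sys.diff q h1 h2).mono (PH1_ball (hle q h2))
      rel := fun q h1 u hu => hH.sys.rel q h1 u (PH1_ball (hle (q + 1) (by omega)) hu)
      val := hH.sys.val
      disj := fun q h1 h2 => (hH.sys.disj q h1 h2).mono_left
        (image_mono (PH1_ball (hle (q + 1) (by omega)))) }

end MPS
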