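import Pool.Agent.helper36.MP.SpecQ

set_option autoImplicit false

open Complex Metric Set Filter Topology MeasureTheory

noncomputable section

namespace MPS

section
variable {n k : ℕ} [NeZero k] {c : ℂ} {b g : ZMod k → ℂ} {ψ : ZMod k → ℂ → ℂ}
  {R ε y ρ₁ : ℝ} {χ : ℂ → ℂ} {G1 : ℕ → ℂ → ℂ} {ps : ℕ} {T : ℕ → ℝ} {G : ℕ → ℂ → ℂ} {Q : ℕ}

theorem PH2_anti (h : H2 n k c b g ψ R ε y ρ₁ χ G1 ps T G Q) {i j : ℕ} (hij : i ≤ j)
    (hj : j ≤ Q) : T j ≤ T i := by
  induction j, hij using Nat.le_induction with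
  | base => exact le_refl _
  | succ j hij ih => exact (h.sys.anti j (by omega)).trans (ih (by omega))

theorem PH2_base (h : SU2 n k c b g ψ R ε y ρ₁ χ G1 ps) :
    H2 n k c b g ψ R ε y ρ₁ χ G1 ps (fun _ => ρ₁) (fun _ => χ) 0 where
  su2 := h
  hQ := Nat.zero_le _
  sys :=
    { t0 := le_rfl
      anti := fun q hq => by omega
      low := fun q _ => by
        have := h.r0
        linarith
      g0 := rfl
      diff := fun q _ => h.nat.diff.mono (by
        refine subset_union_of_subset_right (ball_subset_ball ?_) _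
        have := h.r0
        linarith)
      rel := fun q hq => by omega
      val := fun q hq => by
        have hq0 : q = 0 := by omega
        subst hq0
        have h0 := h.r0
        have hm : (y : ℂ) * I - ρ₁ / 4 ∈ HP 0 := by
          change ((y : ℂ) * I - ρ₁ / 4).re < -0
          have : ((y : ℂ) * I - ρ₁ / 4).re = -(ρ₁ / 4) := by
            have e : (ρ₁ : ℂ) / 4 = ((ρ₁ / 4 : ℝ) : ℂ) := by
              push_cast
              ring
            rw [e]
            simp
          rw [this]
          linarith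
        rw [h.ext hm, h.s1.g0]
        rfl
      disj := fun q h1 h2 => by omega }

theorem PH2_step (hM : MEAS2_stmt) (hS : STEP2_stmt) (h : SU2 n k c b g ψ R ε y ρ₁ χ G1 ps)
    (hε : ε ≤ ρ₁ ^ 2 / 4 ^ 200) (Q : ℕ) : Q ≤ k → ∃ (T : ℕ → ℝ) (G : ℕ → ℂ → ℂ),
      H2 n k c b g ψ R ε y ρ₁ χ G1 ps T G Q ∧ T 0 = ρ₁ ∧
      ∀ q < Q, ∀ r, T (q + 1) < r → r < T q → Fail2 c y ρ₁ χ ps G q r := by
  induction Q with
  | zero =>
    intro _
    exact ⟨fun _ => ρ₁, fun _ => χ, PH2_base h, rfl, fun q hq => by omega⟩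
  | succ Q ih =>
    intro hQ
    obtain ⟨T, G, hH, hT, hF⟩ := ih (by omega)
    have h1 := hM n k c b g ψ R ε y ρ₁ χ G1 ps T G Q hH (by omega) hε hT hF
    obtain ⟨t', g', hH', hF'⟩ := hS n k c b g ψ R ε y ρ₁ χ G1 ps T G Q hH (by omega) h1
    refine ⟨_, _, hH', ?_, ?_⟩
    · rw [Function.update_of_ne (by omega)]
      exact hT
    · intro q hq r h2 h3
      rcases (Nat.lt_succ_iff.1 hq).eq_or_lt with h4 | h4
      · subst h4
        rw [Function.update_self] at h2
        rw [Function.update_of_ne (by omega)] at h3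
        have := hF' r h2 h3
        unfold Fail2 at this ⊢
        rw [Function.update_of_ne (by omega)]
        exact this
      · rw [Function.update_of_ne (by omega)] at h2
        rw [Function.update_of_ne (by omega)] at h3
        have := hF q h4 r h2 h3
        unfold Fail2 at this ⊢
        rw [Function.update_of_ne (by omega)]
        exact this

end

theorem PH2 (hM : MEAS2_stmt) (hS : STEP2_stmt) : PH2_stmt := by
  intro n k _ c b g ψ R ε y ρ₁ χ G1 ps h hε
  obtain ⟨T, G, hH, hT, hF⟩ := PH2_step hM hS h hε k le_rfl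
  refine ⟨T k, G, h, ?_, le_rfl⟩
  have hle : ∀ q ≤ k, T k ≤ T q := fun q hq => PH2_anti hH hq le_rfl
  exact
    { t0 := (hle 0 (by omega)).trans hH.sys.t0
      anti := fun _ _ => le_rfl
      low := fun q _ => hH.sys.low k le_rfl
      g0 := hH.sys.g0
      diff := fun q hq => (hH.sys.diff q hq).mono (ball_subset_ball (hle q hq))
      rel := fun q hq w hw => hH.sys.rel q hq w (ball_subset_ball (hle (q + 1) (by omega)) hw)
      val := hH.sys.val
      disj := fun q h1 h2 h3 => (hH.sys.disj q h1 h2 h3).mono_left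
        (image_mono (ball_subset_ball (hle (q + 1) (by omega)))) }

end MPS
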