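import Pool.Agent.helper36.MP.SpecZ
import Mathlib.RingTheory.Polynomial.Resultant.Basic

set_option autoImplicit false

open Complex Metric Set Filter Topology MeasureTheory

noncomputable section

namespace MPS

open Pool.Agent.helper16.Multibrot

/-- the iterates as polynomials (coefficients: polynomials in the multiplier and the parameter). -/
def ZR_Phi (n : ℕ) : ℕ → Polynomial (Polynomial (Polynomial ℂ))
  | 0 => Polynomial.X
  | (k + 1) => ZR_Phi n k ^ n + Polynomial.C (Polynomial.C Polynomial.X)

/-- evaluation at the parameter `c` and the multiplier `l`. -/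
def ZR_ev (c l : ℂ) : Polynomial (Polynomial ℂ) →+* ℂ :=
  (Polynomial.evalRingHom c).comp (Polynomial.evalRingHom (Polynomial.C l))

theorem ZR_monic (n k : ℕ) (hn : 2 ≤ n) :
    (ZR_Phi n k).Monic ∧ (ZR_Phi n k).natDegree = n ^ k := by
  induction k with
  | zero => exact ⟨Polynomial.monic_X, by simp [ZR_Phi]⟩
  | succ k ih =>
    obtain ⟨h1, h2⟩ := ih
    have h3 : (ZR_Phi n k ^ n).Monic := h1.pow n
    have h4 : (ZR_Phi n k ^ n).natDegree = n ^ (k + 1) := by
      rw [h1.natDegree_pow, h2, pow_succ, mul_comm]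
    have h5 : 0 < n ^ (k + 1) := by positivity
    constructor
    · change (ZR_Phi n k ^ n + Polynomial.C (Polynomial.C Polynomial.X)).Monic
      refine h3.add_of_left ?_
      refine lt_of_le_of_lt Polynomial.degree_C_le ?_
      rw [Polynomial.degree_eq_natDegree h3.ne_zero, h4]
      exact_mod_cast h5
    · change (ZR_Phi n k ^ n + Polynomial.C (Polynomial.C Polynomial.X)).natDegree = _
      rw [Polynomial.natDegree_add_C, h4]

theorem ZR_eval (n k : ℕ) (c l z : ℂ) :
    ((ZR_Phi n k).map (ZR_ev c l)).eval z = (fc n c)^[k] z := by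
  induction k with
  | zero => simp [ZR_Phi]
  | succ k ih =>
    rw [Function.iterate_succ_apply', ← ih]
    simp only [ZR_Phi, Polynomial.map_add, Polynomial.map_pow, Polynomial.map_C,
      Polynomial.eval_add, Polynomial.eval_pow, Polynomial.eval_C, fc]
    congr 1
    simp [ZR_ev]

theorem ZR : ZR_stmt := by
  intro n k hn hk
  set F := ZR_Phi n k - Polynomial.X with hF
  set M := Polynomial.derivative (ZR_Phi n k) - Polynomial.C Polynomial.X with hM
  obtain ⟨h1, h2⟩ := ZR_monic n k hn
  have hN : 1 < n ^ k := Nat.one_lt_pow (by omega) (by omega)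
  have hFm : F.Monic := by
    refine h1.sub_of_left ?_
    rw [Polynomial.degree_X, Polynomial.degree_eq_natDegree h1.ne_zero, h2]
    exact_mod_cast hN
  have hFd : F.natDegree = n ^ k := by
    rw [hF, Polynomial.natDegree_sub_eq_left_of_natDegree_lt, h2]
    rw [Polynomial.natDegree_X, h2]
    exact hN
  refine ⟨Polynomial.resultant F M (n ^ k) M.natDegree, ?_⟩
  intro c l
  have e0 : ((Polynomial.resultant F M (n ^ k) M.natDegree).eval (Polynomial.C l)).eval c =
      ZR_ev c l (Polynomial.resultant F M (n ^ k) M.natDegree) := rfl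
  have hmap : (F.map (ZR_ev c l)).Monic := hFm.map _
  have hmapd : (F.map (ZR_ev c l)).natDegree = n ^ k := by
    rw [hFm.natDegree_map, hFd]
  have h3 := Polynomial.resultant_eq_prod_eval (F.map (ZR_ev c l)) (M.map (ZR_ev c l)) M.natDegree
    Polynomial.natDegree_map_le (IsAlgClosed.splits _)
  rw [hmapd, Polynomial.resultant_map_map, hmap.leadingCoeff, one_pow, one_mul] at h3
  rw [e0, h3, Multiset.prod_eq_zero_iff, Multiset.mem_map]
  have hder : ∀ z, mlt n k c z = ((ZR_Phi n k).derivative.map (ZR_ev c l)).eval z := by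
    intro z
    unfold mlt
    have : (fc n c)^[k] = fun z => ((ZR_Phi n k).map (ZR_ev c l)).eval z := by
      funext z
      rw [ZR_eval]
    rw [this, Polynomial.deriv, Polynomial.derivative_map]
  constructor
  · rintro ⟨z, hz, hz2⟩
    refine ⟨z, ?_, ?_⟩
    · rw [Polynomial.mem_roots hmap.ne_zero, Polynomial.IsRoot, hF, Polynomial.map_sub,
        Polynomial.eval_sub, ZR_eval, Polynomial.map_X, Polynomial.eval_X, sub_eq_zero] at hz
      exact hz
    · rw [hM, Polynomial.map_sub, Polynomial.eval_sub, ← hder, Polynomial.map_C,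
        Polynomial.eval_C, sub_eq_zero] at hz2
      rw [hz2]
      simp [ZR_ev]
  · rintro ⟨z, hz, hz2⟩
    refine ⟨z, ?_, ?_⟩
    · rw [Polynomial.mem_roots hmap.ne_zero, Polynomial.IsRoot, hF, Polynomial.map_sub,
        Polynomial.eval_sub, ZR_eval, Polynomial.map_X, Polynomial.eval_X, sub_eq_zero]
      exact hz
    · rw [hM, Polynomial.map_sub, Polynomial.eval_sub, ← hder, Polynomial.map_C,
        Polynomial.eval_C, sub_eq_zero, hz2]
      simp [ZR_ev]

end MPS
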